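import Mathlib

set_option autoImplicit false

open Set Filter Topology Complex

namespace Pool.Agent.Results.MP_b83ca4_nt.TwoCopiesDenseForest

/-- The second basis vector `(1/2, √3/2)` of the triangular lattice, as a complex number. -/
noncomputable def ω : ℂ := ⟨1 / 2, √3 / 2⟩

/-- The triangular (honeycomb) lattice `Λ = span_ℤ ((1,0), (1/2, √3/2))` in the plane `ℂ = ℝ²`. -/
def Lam : Set ℂ := {z | ∃ a b : ℤ, z = a + b * ω}

/-- The union of `k` rotated and translated copies of `Λ`; rotation by the angle `θ_i` is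
multiplication by the point `u i` of the unit circle. -/
def TBG (k : ℕ) (x : Fin k → ℂ) (u : Fin k → Circle) : Set ℂ :=
  ⋃ i, (fun z : ℂ => (u i : ℂ) * z + x i) '' Lam

/-- Dense forest: for every `ε > 0` there is `V > 0` such that every segment of length `V` has a
point of `D` at distance less than `ε`. -/
def IsDenseForest (D : Set ℂ) : Prop :=
  ∀ ε : ℝ, 0 < ε → ∃ V : ℝ, 0 < V ∧ ∀ a b : ℂ, dist a b = V →
    ∃ p ∈ D, ∃ q ∈ segment ℝ a b, dist p q < ε

/-- The direction `w` is rational for the rotated lattice `v Λ`: some nonzero real multiple of `w`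
is a lattice vector. -/
def RationalDirection (v : Circle) (w : ℂ) : Prop :=
  ∃ t : ℝ, t ≠ 0 ∧ ∃ l ∈ Lam, (t : ℂ) * w = (v : ℂ) * l

theorem sqrt3_pos : (0 : ℝ) < √3 := by positivity

/-- the linear form with kernel `ℝ w` -/
noncomputable def form (w z : ℂ) : ℝ := w.re * z.im - w.im * z.re

theorem form_eq (w z : ℂ) : form w z = ((starRingEnd ℂ) w * z).im := by
  simp [form, Complex.mul_im]
  ring

theorem abs_form_le (w z : ℂ) : |form w z| ≤ ‖w‖ * ‖z‖ := by
  rw [form_eq]
  refine (Complex.abs_im_le_norm _).trans ?_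
  rw [norm_mul, Complex.norm_conj]

theorem form_add (w z z' : ℂ) : form w (z + z') = form w z + form w z' := by
  simp [form]; ring

theorem form_sub (w z z' : ℂ) : form w (z - z') = form w z - form w z' := by
  simp [form]; ring

theorem form_smul (w : ℂ) (c : ℝ) (z : ℂ) : form w (c * z) = c * form w z := by
  simp [form]; ring

theorem exists_reduce (z : ℂ) : ∃ l ∈ Lam, ‖z - l‖ ≤ 2 := by
  set b : ℤ := round (z.im / (√3 / 2)) with hb
  set a : ℤ := round (z.re - b / 2) with ha
  refine ⟨a + b * ω, ⟨a, b, rfl⟩, ?_⟩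
  have h3 : √3 ≤ 2 := by
    rw [Real.sqrt_le_iff]; norm_num
  have e1 : (z - (a + b * ω)).re = (z.re - b / 2) - a := by
    simp [ω]; ring
  have e2 : (z - (a + b * ω)).im = (z.im / (√3 / 2) - b) * (√3 / 2) := by
    simp [ω]
    field_simp
  have r1 : |(z - (a + b * ω)).re| ≤ 1 / 2 := by
    rw [e1]; exact abs_sub_round _
  have r2 : |(z - (a + b * ω)).im| ≤ 1 := by
    rw [e2, abs_mul, abs_of_pos (show 0 < √3 / 2 by positivity)]
    have h4 : |z.im / (√3 / 2) - b| ≤ 1 / 2 := abs_sub_round (z.im / (√3 / 2))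
    calc |z.im / (√3 / 2) - b| * (√3 / 2) ≤ (1 / 2) * (2 / 2) := by gcongr
      _ ≤ 1 := by norm_num
  calc ‖z - (a + b * ω)‖ ≤ |(z - (a + b * ω)).re| + |(z - (a + b * ω)).im| :=
        Complex.norm_le_abs_re_add_abs_im _
    _ ≤ 2 := by linarith

/-- Kronecker: a line which stays away from `Λ` has rational direction. -/
theorem kronecker {w r : ℂ} (hw : w ≠ 0) {ε : ℝ} (hε : 0 < ε)
    (h : ∀ l ∈ Lam, ∀ t : ℝ, ε ≤ ‖l - r - t * w‖) :
    ∃ t : ℝ, t ≠ 0 ∧ ∃ l ∈ Lam, (t : ℂ) * w = l := by
  have hwn : 0 < ‖w‖ := norm_pos_iff.2 hw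
  have hsq : w.re ^ 2 + w.im ^ 2 = ‖w‖ ^ 2 := by
    rw [Complex.sq_norm, Complex.normSq_apply]; ring
  have hsqpos : 0 < w.re ^ 2 + w.im ^ 2 := by rw [hsq]; positivity
  rcases AddSubgroup.dense_or_cyclic (AddSubgroup.closure {form w 1, form w ω}) with hd | ⟨g, hg⟩
  · exfalso
    obtain ⟨y, hy1, hy2⟩ := Metric.dense_iff.1 hd (form w r) (ε * ‖w‖) (by positivity)
    rw [SetLike.mem_coe, AddSubgroup.mem_closure_pair] at hy2
    obtain ⟨m, n, hmn⟩ := hy2
    rw [Metric.mem_ball, Real.dist_eq] at hy1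
    set l : ℂ := m + n * ω with hl
    have hlL : l ∈ Lam := ⟨m, n, rfl⟩
    have hfl : form w l = y := by
      rw [← hmn, hl, form_add]
      simp [form]
      ring
    set z : ℂ := l - r with hz
    have hfz : |form w z| < ε * ‖w‖ := by rw [hz, form_sub, hfl]; exact hy1
    set t : ℝ := (w.re * z.re + w.im * z.im) / (w.re ^ 2 + w.im ^ 2) with ht
    have hkey : z - t * w = ((form w z / (w.re ^ 2 + w.im ^ 2) : ℝ) : ℂ) * (I * w) := by
      apply Complex.ext
      · rw [Complex.sub_re, Complex.re_ofReal_mul, Complex.re_ofReal_mul, ht]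
        simp only [form, Complex.mul_re, Complex.I_re, Complex.I_im]
        field_simp
        ring
      · rw [Complex.sub_im, Complex.im_ofReal_mul, Complex.im_ofReal_mul, ht]
        simp only [form, Complex.mul_im, Complex.I_re, Complex.I_im]
        field_simp
        ring
    have h1 := h l hlL t
    rw [← hz, hkey, norm_mul, Complex.norm_real, norm_mul, Complex.norm_I, one_mul,
      Real.norm_eq_abs, abs_div, abs_of_pos hsqpos, hsq] at h1
    have h2 : |form w z| / ‖w‖ ^ 2 * ‖w‖ = |form w z| / ‖w‖ := by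
      field_simp
    rw [h2, le_div_iff₀ hwn] at h1
    linarith
  · have m1 : form w 1 ∈ AddSubgroup.closure {g} := by
      rw [← hg]; exact AddSubgroup.subset_closure (by simp)
    have m2 : form w ω ∈ AddSubgroup.closure {g} := by
      rw [← hg]; exact AddSubgroup.subset_closure (by simp)
    rw [AddSubgroup.mem_closure_singleton] at m1 m2
    obtain ⟨m, hm⟩ := m1
    obtain ⟨n, hn⟩ := m2
    simp only [zsmul_eq_mul] at hm hn
    set l : ℂ := (n : ℤ) + ((-m : ℤ) : ℂ) * ω with hl
    have hfl : form w l = 0 := by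
      have e : l = ((n : ℝ) : ℂ) * 1 + ((-m : ℝ) : ℂ) * ω := by
        rw [hl]; push_cast; ring
      rw [e, form_add, form_smul, form_smul, ← hm, ← hn]
      ring
    have hlne : l ≠ 0 := by
      intro h0
      have him : l.im = -(m * (√3 / 2)) := by simp [hl, ω]
      rw [h0] at him
      have hm0 : (m : ℝ) = 0 := by
        have := sqrt3_pos
        have h1 : (m : ℝ) * (√3 / 2) = 0 := by simpa using him.symm
        rcases mul_eq_zero.1 h1 with h2 | h2
        · exact h2
        · linarith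
      have hre : l.re = n := by
        simp [hl, ω]
        exact_mod_cast hm0
      rw [h0] at hre
      have hn0 : (n : ℝ) = 0 := by simpa using hre.symm
      rw [hm0, zero_mul] at hm
      rw [hn0, zero_mul] at hn
      have h1 : w.im = 0 := by
        simp [form] at hm
        exact hm
      have h2 : w.re = 0 := by
        simp [form, ω, h1] at hn
        exact hn
      exact hw (Complex.ext h2 h1)
    refine ⟨(w.re * l.re + w.im * l.im) / (w.re ^ 2 + w.im ^ 2), ?_, l, ⟨n, -m, hl⟩, ?_⟩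
    · intro h0
      rw [div_eq_zero_iff] at h0
      rcases h0 with h0 | h0
      · apply hlne
        unfold form at hfl
        have h1 : l.re = 0 := by
          have : (w.re ^ 2 + w.im ^ 2) * l.re = 0 := by
            linear_combination w.re * h0 - w.im * hfl
          exact (mul_eq_zero.1 this).resolve_left hsqpos.ne'
        have h2 : l.im = 0 := by
          have : (w.re ^ 2 + w.im ^ 2) * l.im = 0 := by
            linear_combination w.im * h0 + w.re * hfl
          exact (mul_eq_zero.1 this).resolve_left hsqpos.ne'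
        exact Complex.ext h1 h2
      · exact hsqpos.ne' h0
    · unfold form at hfl
      apply Complex.ext
      · simp only [Complex.mul_re, Complex.ofReal_re, Complex.ofReal_im, zero_mul, sub_zero]
        field_simp
        linear_combination w.im * hfl
      · simp only [Complex.mul_im, Complex.ofReal_re, Complex.ofReal_im, zero_mul, add_zero]
        field_simp
        linear_combination (-w.re) * hfl

theorem circle_norm (v : Circle) : ‖(v : ℂ)‖ = 1 := Circle.norm_coe v

theorem circle_ne (v : Circle) : (v : ℂ) ≠ 0 := Circle.coe_ne_zero v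

/-- No common rational direction implies dense forest. -/
theorem denseForest_of {k : ℕ} {x : Fin k → ℂ} {u : Fin k → Circle}
    (h : ¬ ∃ w : ℂ, w ≠ 0 ∧ ∀ i, RationalDirection (u i) w) : IsDenseForest (TBG k x u) := by
  by_contra hnot
  unfold IsDenseForest at hnot
  push Not at hnot
  obtain ⟨ε, hε, hV⟩ := hnot
  have hV' : ∀ n : ℕ, ∃ a b : ℂ, dist a b = 2 * (n + 1) ∧
      ∀ p ∈ TBG k x u, ∀ q ∈ segment ℝ a b, ε ≤ dist p q :=
    fun n => hV (2 * (n + 1)) (by positivity)
  choose a b hab havoid using hV'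
  -- midpoints and directions
  set m : ℕ → ℂ := fun n => (a n + b n) / 2 with hm
  set w : ℕ → ℂ := fun n => (b n - a n) / (2 * (n + 1)) with hwdef
  have hwn : ∀ n, ‖w n‖ = 1 := by
    intro n
    have h1 : ‖b n - a n‖ = 2 * (n + 1) := by rw [← hab n, dist_comm, dist_eq_norm]
    have h2 : ‖(2 * ((n : ℂ) + 1))‖ = 2 * (n + 1) := by
      have : (2 * ((n : ℂ) + 1)) = ((2 * (n + 1) : ℝ) : ℂ) := by push_cast; ring
      rw [this, Complex.norm_real, Real.norm_of_nonneg (by positivity)]
    simp only [hwdef]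
    rw [norm_div, h1, h2, div_self (by positivity)]
  have hseg : ∀ (n : ℕ) (t : ℝ), |t| ≤ n + 1 → m n + t * w n ∈ segment ℝ (a n) (b n) := by
    intro n t ht
    rw [abs_le] at ht
    have hn : (0 : ℝ) < n + 1 := by positivity
    refine ⟨1 / 2 - t / (2 * (n + 1)), 1 / 2 + t / (2 * (n + 1)), ?_, ?_, by ring, ?_⟩
    · have : t / (2 * (n + 1)) ≤ 1 / 2 := by
        rw [div_le_iff₀ (by positivity)]; linarith [ht.2]
      linarith
    · have : -(1 / 2) ≤ t / (2 * (n + 1)) := by
        rw [le_div_iff₀ (by positivity)]; linarith [ht.1]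
      linarith
    · have hnc : ((n : ℂ) + 1) ≠ 0 := by
        have : ((n : ℂ) + 1) = ((n + 1 : ℝ) : ℂ) := by push_cast; ring
        rw [this]; exact_mod_cast hn.ne'
      simp only [Complex.real_smul, hm, hwdef]
      push_cast
      field_simp
      ring
  -- reduction of the midpoints modulo the lattices
  have hred : ∀ n i, ∃ l ∈ Lam, ‖(m n - x i) / (u i : ℂ) - l‖ ≤ 2 :=
    fun n i => exists_reduce _
  choose l hlL hl2 using hred
  set r : ℕ → Fin k → ℂ := fun n i => (m n - x i) / (u i : ℂ) - l n i with hr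
  have hcomp : IsCompact ((Metric.sphere (0 : ℂ) 1) ×ˢ
      (Set.pi univ (fun _ : Fin k => Metric.closedBall (0 : ℂ) 2))) :=
    (isCompact_sphere _ _).prod (isCompact_univ_pi fun _ => isCompact_closedBall _ _)
  have hmem : ∀ n, (w n, r n) ∈ (Metric.sphere (0 : ℂ) 1) ×ˢ
      (Set.pi univ (fun _ : Fin k => Metric.closedBall (0 : ℂ) 2)) := by
    intro n
    refine ⟨?_, fun i _ => ?_⟩
    · simpa using hwn n
    · rw [mem_closedBall_zero_iff]
      exact hl2 n i
  obtain ⟨⟨w0, r0⟩, hw0, φ, hφ, hlim⟩ := hcomp.tendsto_subseq hmem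
  have hw0n : ‖w0‖ = 1 := by simpa using hw0.1
  have hw0ne : w0 ≠ 0 := by
    intro h0
    rw [h0, norm_zero] at hw0n
    exact zero_ne_one hw0n
  have hlimw : Tendsto (fun n => w (φ n)) atTop (𝓝 w0) :=
    (continuous_fst.tendsto _).comp hlim
  have hlimr : ∀ i, Tendsto (fun n => r (φ n) i) atTop (𝓝 (r0 i)) := fun i =>
    (((continuous_apply i).comp continuous_snd).tendsto (w0, r0)).comp hlim
  apply h
  refine ⟨w0, hw0ne, fun i => ?_⟩
  have hline : ∀ z ∈ Lam, ∀ t : ℝ, ε ≤ ‖z - r0 i - t * (w0 / (u i : ℂ))‖ := by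
    intro z hz t
    have hl' : Tendsto (fun n => ‖z - r (φ n) i - t * (w (φ n) / (u i : ℂ))‖) atTop
        (𝓝 ‖z - r0 i - t * (w0 / (u i : ℂ))‖) :=
      (((hlimr i).const_sub z).sub ((hlimw.div_const _).const_mul _)).norm
    refine ge_of_tendsto hl' ?_
    obtain ⟨N, hN⟩ := exists_nat_ge |t|
    filter_upwards [eventually_ge_atTop N] with n hn
    have hNn : (N : ℝ) ≤ φ n := by
      exact_mod_cast hn.trans (hφ.id_le n)
    have ht : |t| ≤ (φ n : ℝ) + 1 := by linarith
    obtain ⟨c, d, hcd⟩ := hz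
    obtain ⟨c', d', hcd'⟩ := hlL (φ n) i
    have hp : (u i : ℂ) * (z + l (φ n) i) + x i ∈ TBG k x u := by
      refine mem_iUnion.2 ⟨i, z + l (φ n) i, ⟨c + c', d + d', ?_⟩, rfl⟩
      rw [hcd, hcd']; push_cast; ring
    have h1 := havoid (φ n) _ hp _ (hseg (φ n) t ht)
    rw [dist_eq_norm] at h1
    have hune := circle_ne (u i)
    have e : (u i : ℂ) * (z + l (φ n) i) + x i - (m (φ n) + t * w (φ n)) =
        (u i : ℂ) * (z - r (φ n) i - t * (w (φ n) / (u i : ℂ))) := by
      simp only [hr]
      field_simp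
      ring
    rw [e, norm_mul, circle_norm, one_mul] at h1
    exact h1
  have hne' : w0 / (u i : ℂ) ≠ 0 := div_ne_zero hw0ne (circle_ne _)
  obtain ⟨t, ht, z, hz, htz⟩ := kronecker hne' hε hline
  refine ⟨t, ht, z, hz, ?_⟩
  rw [← htz]
  field_simp [circle_ne (u i)]

/-- A common rational direction prevents a dense forest. -/
theorem not_denseForest_of {k : ℕ} {x : Fin k → ℂ} {u : Fin k → Circle} {w : ℂ} (hw : w ≠ 0)
    (h : ∀ i, RationalDirection (u i) w) : ¬ IsDenseForest (TBG k x u) := by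
  choose t ht l hl htl using h
  have hwn : 0 < ‖w‖ := norm_pos_iff.2 hw
  set g : Fin k → ℝ := fun i => √3 / 2 / t i with hg
  have hgne : ∀ i, g i ≠ 0 := fun i =>
    div_ne_zero (by positivity) (ht i)
  have hform : ∀ i, ∀ z ∈ Lam, ∃ N : ℤ, form w ((u i : ℂ) * z) = N * g i := by
    intro i z hz
    obtain ⟨c, d, rfl⟩ := hz
    obtain ⟨a, b, hab⟩ := hl i
    refine ⟨a * d - b * c, ?_⟩
    have h1 : (t i) ^ 2 * form w ((u i : ℂ) * (c + d * ω)) =
        t i * form ((u i : ℂ) * l i) ((u i : ℂ) * (c + d * ω)) := by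
      rw [← htl i]
      simp [form]
      ring
    have h2 : form ((u i : ℂ) * l i) ((u i : ℂ) * (c + d * ω)) = form (l i) (c + d * ω) := by
      rw [form_eq, form_eq, map_mul]
      have : (starRingEnd ℂ) (u i : ℂ) * (u i : ℂ) = 1 := by
        rw [← Complex.normSq_eq_conj_mul_self, Circle.normSq_coe]
        simp
      congr 1
      linear_combination ((starRingEnd ℂ) (l i) * (c + d * ω)) * this
    have h3 : form (l i) (c + d * ω) = (a * d - b * c) * (√3 / 2) := by
      rw [hab]
      simp [form, ω]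
      ring
    rw [h2, h3] at h1
    have hti := ht i
    simp only [hg]
    push_cast
    field_simp
    have h4 : t i * (t i * form w ((u i : ℂ) * (c + d * ω))) =
        t i * ((a * d - b * c) * (√3 / 2)) := by
      linear_combination h1
    have h5 := mul_left_cancel₀ hti h4
    linear_combination 2 * h5
  -- a value avoided by the form
  set Z : Set ℝ := ⋃ i, range (fun N : ℤ => (N : ℝ) * g i + form w (x i)) with hZ
  have hZclosed : IsClosed Z := by
    apply isClosed_iUnion_of_finite
    intro i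
    have h1 : IsClosed (range ((↑) : ℤ → ℝ)) := Int.isClosedEmbedding_coe_real.isClosed_range
    have h2 := ((Homeomorph.mulRight₀ (g i) (hgne i)).trans
      (Homeomorph.addRight (form w (x i)))).isClosed_image.2 h1
    rw [← range_comp] at h2
    exact h2
  have hZc : Z.Countable := countable_iUnion fun i => countable_range _
  obtain ⟨s, hs⟩ : (Zᶜ).Nonempty := by
    rw [nonempty_compl]
    intro huniv
    have := hZc
    rw [huniv] at this
    exact not_countable_univ this
  obtain ⟨δ, hδ, hball⟩ := Metric.isOpen_iff.1 hZclosed.isOpen_compl s hs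
  intro hforest
  obtain ⟨V, hV, hseg⟩ := hforest (δ / ‖w‖) (by positivity)
  have hsq : w.re ^ 2 + w.im ^ 2 = ‖w‖ ^ 2 := by
    rw [Complex.sq_norm, Complex.normSq_apply]; ring
  have hsqpos : 0 < w.re ^ 2 + w.im ^ 2 := by rw [hsq]; positivity
  set z0 : ℂ := ((s / (w.re ^ 2 + w.im ^ 2) : ℝ) : ℂ) * (I * w) with hz0
  have hfz0 : form w z0 = s := by
    rw [hz0, form_smul]
    simp only [form, Complex.mul_re, Complex.mul_im, Complex.I_re, Complex.I_im]
    field_simp
    ring
  have hfw : form w w = 0 := by simp [form]; ring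
  obtain ⟨p, hp, q, hq, hpq⟩ := hseg z0 (z0 + ((V / ‖w‖ : ℝ) : ℂ) * w) (by
    rw [dist_eq_norm]
    have : z0 - (z0 + ((V / ‖w‖ : ℝ) : ℂ) * w) = -(((V / ‖w‖ : ℝ) : ℂ) * w) := by ring
    rw [this, norm_neg, norm_mul, Complex.norm_real, Real.norm_of_nonneg (by positivity)]
    field_simp)
  have hfq : form w q = s := by
    obtain ⟨c, d, hc, hd, hcd, rfl⟩ := hq
    simp only [Complex.real_smul]
    rw [form_add w (c * z0), form_smul w c, form_smul w d, form_add w z0, form_smul w (V / ‖w‖),
      hfz0, hfw]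
    linear_combination s * hcd
  obtain ⟨i, z, hz, rfl⟩ := mem_iUnion.1 hp
  obtain ⟨N, hN⟩ := hform i z hz
  have hin : form w ((u i : ℂ) * z + x i) ∈ Z := by
    rw [form_add, hN]
    exact mem_iUnion.2 ⟨i, N, rfl⟩
  have hout : ¬ |form w ((u i : ℂ) * z + x i) - s| < δ := fun hlt =>
    hball (by rwa [Metric.mem_ball, Real.dist_eq]) hin
  apply hout
  rw [← hfq, ← form_sub]
  refine (abs_form_le _ _).trans_lt ?_
  rw [dist_eq_norm, lt_div_iff₀ hwn] at hpq
  linarith

/-- The point `e^{iπ/4}` of the circle has coordinates `(√2/2, √2/2)`. -/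
theorem exp_quarter : ((Circle.exp (Real.pi / 4) : Circle) : ℂ) =
    ((√2 / 2 : ℝ) : ℂ) * (1 + I) := by
  rw [Circle.coe_exp, Complex.exp_mul_I, ← Complex.ofReal_cos, ← Complex.ofReal_sin,
    Real.cos_pi_div_four, Real.sin_pi_div_four]
  ring

theorem int_sqrt3 {e f : ℤ} (h : (2 * e + f : ℝ) = √3 * f) : e = 0 ∧ f = 0 := by
  have hirr : Irrational √3 := Nat.Prime.irrational_sqrt (by norm_num : Nat.Prime 3)
  by_cases hf : f = 0
  · subst hf
    simp at h
    exact ⟨h, rfl⟩
  · exfalso
    have hf' : (f : ℝ) ≠ 0 := by exact_mod_cast hf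
    apply hirr
    refine ⟨(2 * e + f : ℚ) / f, ?_⟩
    push_cast
    rw [h]
    field_simp

/-- The lattices `Λ` and `e^{iπ/4} Λ` have no common rational direction. -/
theorem no_common : ¬ ∃ w : ℂ, w ≠ 0 ∧ RationalDirection 1 w ∧
    RationalDirection (Circle.exp (Real.pi / 4)) w := by
  rintro ⟨w, hw, ⟨t, ht, l, ⟨a, b, hl⟩, h1⟩, ⟨t', ht', l', ⟨c, d, hl'⟩, h2⟩⟩
  rw [exp_quarter] at h2
  simp only [Circle.coe_one, one_mul] at h1
  set σ : ℝ := √2 / 2 with hσ
  have hσpos : 0 < σ := by positivity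
  have hl0 : l ≠ 0 := by
    rw [← h1]
    exact mul_ne_zero (by exact_mod_cast ht) hw
  have hl'0 : l' ≠ 0 := by
    rintro rfl
    rw [mul_zero] at h2
    exact mul_ne_zero (by exact_mod_cast ht') hw h2
  -- `A = l * conj l'` is a real multiple of `1 + i`
  have hA : (t' : ℂ) * (l * (starRingEnd ℂ) l') =
      ((t * σ * Complex.normSq l' : ℝ) : ℂ) * (1 + I) := by
    have e1 : (t' : ℂ) * l = (t : ℂ) * ((σ : ℂ) * (1 + I) * l') := by
      rw [← h1, ← h2]; ring
    have e2 : l' * (starRingEnd ℂ) l' = (Complex.normSq l' : ℂ) := Complex.mul_conj l'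
    calc (t' : ℂ) * (l * (starRingEnd ℂ) l') = ((t' : ℂ) * l) * (starRingEnd ℂ) l' := by ring
      _ = (t : ℂ) * ((σ : ℂ) * (1 + I)) * (l' * (starRingEnd ℂ) l') := by rw [e1]; ring
      _ = _ := by rw [e2]; push_cast; ring
  have hre := congrArg Complex.re hA
  have him := congrArg Complex.im hA
  simp only [Complex.re_ofReal_mul, Complex.im_ofReal_mul, Complex.add_re, Complex.add_im,
    Complex.one_re, Complex.one_im, Complex.I_re, Complex.I_im, add_zero, zero_add,
    mul_one] at hre him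
  have hAeq : (l * (starRingEnd ℂ) l').re = (l * (starRingEnd ℂ) l').im :=
    mul_left_cancel₀ ht' (hre.trans him.symm)
  have hs3 : √3 * √3 = 3 := Real.mul_self_sqrt (by norm_num)
  have hAre : (l * (starRingEnd ℂ) l').re = (a * c + b * d + a * d : ℝ) + (b * c - a * d) / 2 := by
    rw [hl, hl']
    simp [ω]
    linear_combination (b * d / 4 : ℝ) * hs3
  have hAim : (l * (starRingEnd ℂ) l').im = (b * c - a * d : ℝ) * (√3 / 2) := by
    rw [hl, hl']
    simp [ω]
    ring
  rw [hAre, hAim] at hAeq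
  have h4 := int_sqrt3 (e := a * c + b * d + a * d) (f := b * c - a * d) (by
    push_cast
    linear_combination 2 * hAeq)
  have hz : l * (starRingEnd ℂ) l' = 0 := by
    apply Complex.ext
    · rw [hAre]
      have e1 : ((a * c + b * d + a * d : ℤ) : ℝ) = 0 := by rw [h4.1]; simp
      have e2 : ((b * c - a * d : ℤ) : ℝ) = 0 := by rw [h4.2]; simp
      push_cast at e1 e2
      rw [e1, e2]; simp
    · rw [hAim]
      have e2 : ((b * c - a * d : ℤ) : ℝ) = 0 := by rw [h4.2]; simp
      push_cast at e2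
      rw [e2]; simp
  rcases mul_eq_zero.1 hz with h | h
  · exact hl0 h
  · exact hl'0 ((map_eq_zero _).1 h)

/-- **Rotated copies of the triangular lattice forming a dense forest.**
(1) For every `k`, all translations `x` and all rotations `u`, the union of the `k` copies of the
triangular lattice is a dense forest if and only if no direction is rational for all `k` rotated
lattices.
(2) The smallest `k ≥ 1` for which a dense forest can be obtained is `k = 2`.
(3) For `k = 2`, rotations by `0` and `π/4` give a dense forest for all translations. -/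
theorem result :
    (∀ (k : ℕ) (x : Fin k → ℂ) (u : Fin k → Circle),
      IsDenseForest (TBG k x u) ↔ ¬ ∃ w : ℂ, w ≠ 0 ∧ ∀ i, RationalDirection (u i) w) ∧
    IsLeast {k : ℕ | 1 ≤ k ∧ ∃ (x : Fin k → ℂ) (u : Fin k → Circle),
      IsDenseForest (TBG k x u)} 2 ∧
    (∀ x : Fin 2 → ℂ, IsDenseForest (TBG 2 x ![1, Circle.exp (Real.pi / 4)])) := by
  have hiff : ∀ (k : ℕ) (x : Fin k → ℂ) (u : Fin k → Circle),
      IsDenseForest (TBG k x u) ↔ ¬ ∃ w : ℂ, w ≠ 0 ∧ ∀ i, RationalDirection (u i) w := by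
    intro k x u
    refine ⟨fun h => ?_, denseForest_of⟩
    rintro ⟨w, hw, hall⟩
    exact not_denseForest_of hw hall h
  have h2 : ∀ x : Fin 2 → ℂ, IsDenseForest (TBG 2 x ![1, Circle.exp (Real.pi / 4)]) := by
    intro x
    rw [hiff]
    rintro ⟨w, hw, hall⟩
    exact no_common ⟨w, hw, by simpa using hall 0, by simpa using hall 1⟩
  refine ⟨hiff, ⟨⟨by norm_num, 0, _, h2 0⟩, ?_⟩, h2⟩
  rintro k ⟨hk, x, u, hforest⟩
  by_contra hlt
  have hk1 : k = 1 := by omega
  subst hk1
  rw [hiff] at hforest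
  apply hforest
  refine ⟨u 0, circle_ne _, fun i => ?_⟩
  have : i = 0 := Subsingleton.elim _ _
  subst this
  exact ⟨1, one_ne_zero, 1, ⟨1, 0, by simp⟩, by simp⟩

end Pool.Agent.Results.MP_b83ca4_nt.TwoCopiesDenseForest
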